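import Pool.Agent.Q44.LD.StmB
import Pool.Agent.Q182.LD.LAMF
import Pool.Agent.Q234.LD.NF

/-!
# Project LD (helper44), job LD-CRD: a bound for the mean of the product of the numbers of all solutions
-/

set_option autoImplicit false
set_option linter.unusedVariables false

namespace Pool.Agent.Q24.LD

open Finset Module Q44.JQ Q44.LD
open Pool.Agent.Y703.CQ (prs ext)
open Pool.Agent.Q182.LD (XX YY ZZ gg gg_zero_or_one sum_cnt count_le)
open Pool.Agent.Q234.LD (card_val_le vl_inj)
open Pool.Agent.Q87.JQ (Gx abs_sg)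
open scoped Classical

section count

variable {F Cc : Type} [Fintype F] [Fintype Cc] {V : F → Type} [∀ f, AddCommGroup (V f)]
  [∀ f, Module (ZMod 2) (V f)] [∀ f, Fintype (V f)]

/-- the number of the unlinked families -/
theorem unl_count {ω : ∀ f, V f →ₗ[ZMod 2] V f →ₗ[ZMod 2] ZMod 2} (h0 : ∀ f x, ω f x x = 0)
    (h1 : ∀ f x, (∀ y, ω f x y = 0) → x = 0) (I : F → Finset Cc) {ι : Type} [Fintype ι]
    (col : ι → Cc) (B : F → ι → Prop) (hB : ∀ f i, B f i ↔ col i ∈ I f) :
    (Nat.card {Z : ∀ f, {i // B f i} → V f × V f // Unl ω B Z} : ℝ) ≤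
      (Fintype.card (Cc → Finset (∀ f, V f × V f)) : ℝ) *
        ∏ f, (Fintype.card (V f) : ℝ) ^ Nat.card {i // B f i} := by
  have hprod : ∏ i, (vc V I (col i) : ℝ) =
      ∏ f, (Fintype.card (V f) : ℝ) ^ Nat.card {i // B f i} := by
    have h2 : ∀ i, (vc V I (col i) : ℝ) = ∏ f, if B f i then (Nat.card (V f) : ℝ) else 1 := by
      intro i
      rw [vc]
      push_cast
      refine prod_congr rfl fun f _ => ?_
      by_cases hf : B f i
      · rw [if_pos hf, if_pos ((hB f i).1 hf)]
      · rw [if_neg hf, if_neg fun h => hf ((hB f i).2 h)]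
    rw [prod_congr rfl fun i _ => h2 i, Finset.prod_comm]
    refine prod_congr rfl fun f _ => ?_
    rw [← Finset.prod_filter, prod_const, Nat.card_eq_fintype_card (α := {i // B f i}),
      Fintype.card_subtype, Nat.card_eq_fintype_card]
  have hT : ∀ T : Cc → Finset (∀ f, V f × V f),
      ((univ : Finset (∀ f, {i // B f i} → V f × V f)).filter fun Z =>
        ∀ i, vl B Z i ∈ T (col i)).card ≤ ∏ i, (T (col i)).card := by
    intro T
    rw [← Fintype.card_piFinset]
    refine Finset.card_le_card_of_injOn (fun Z => vl B Z) ?_ ?_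
    · intro Z hZ
      rw [mem_coe, mem_filter] at hZ
      rw [mem_coe, Fintype.mem_piFinset]
      exact hZ.2
    · intro Z _ Z' _ hZZ
      exact vl_inj B Z Z' hZZ
  have hT2 : ∀ (T : Cc → Finset (∀ f, V f × V f)), (∀ c, (T c).card ≤ vc V I c) →
      (((univ : Finset (∀ f, {i // B f i} → V f × V f)).filter fun Z =>
        ∀ i, vl B Z i ∈ T (col i)).card : ℝ) ≤
      ∏ f, (Fintype.card (V f) : ℝ) ^ Nat.card {i // B f i} := by
    intro T hle
    have h2 : (((univ : Finset (∀ f, {i // B f i} → V f × V f)).filter fun Z =>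
        ∀ i, vl B Z i ∈ T (col i)).card : ℝ) ≤ ((∏ i, (T (col i)).card : ℕ) : ℝ) := by
      exact_mod_cast hT T
    refine h2.trans ?_
    rw [← hprod]
    push_cast
    exact Finset.prod_le_prod (fun i _ => Nat.cast_nonneg _) fun i _ => by
      exact_mod_cast hle (col i)
  have hPn : (0 : ℝ) ≤ ∏ f, (Fintype.card (V f) : ℝ) ^ Nat.card {i // B f i} :=
    prod_nonneg fun f _ => pow_nonneg (Nat.cast_nonneg _) _
  rw [Nat.card_eq_fintype_card, Fintype.card_subtype]
  have hsub : ((univ : Finset (∀ f, {i // B f i} → V f × V f)).filter fun Z => Unl ω B Z) ⊆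
      ((univ : Finset (Cc → Finset (∀ f, V f × V f))).filter fun p =>
        ∀ c, (p c).card ≤ vc V I c).biUnion fun p =>
        (univ : Finset (∀ f, {i // B f i} → V f × V f)).filter fun Z =>
          ∀ i, vl B Z i ∈ p (col i) := by
    intro Z hZ
    rw [mem_filter] at hZ
    rw [mem_biUnion]
    refine ⟨fun c => (univ.filter fun i => col i = c).image (vl B Z), ?_, ?_⟩
    · rw [mem_filter]
      exact ⟨mem_univ _, fun c => card_val_le h0 h1 I col B hB Z hZ.2 c⟩
    · rw [mem_filter]
      refine ⟨mem_univ _, fun i => ?_⟩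
      exact mem_image_of_mem _ (mem_filter.2 ⟨mem_univ _, rfl⟩)
  have hc1 : (((univ : Finset (∀ f, {i // B f i} → V f × V f)).filter fun Z =>
      Unl ω B Z).card : ℝ) ≤
      ∑ p ∈ (univ : Finset (Cc → Finset (∀ f, V f × V f))).filter fun p =>
        ∀ c, (p c).card ≤ vc V I c,
        (((univ : Finset (∀ f, {i // B f i} → V f × V f)).filter fun Z =>
          ∀ i, vl B Z i ∈ p (col i)).card : ℝ) := by
    exact_mod_cast (card_le_card hsub).trans card_biUnion_le
  refine hc1.trans ?_
  calc _ ≤ ∑ p ∈ (univ : Finset (Cc → Finset (∀ f, V f × V f))).filter fun p =>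
        ∀ c, (p c).card ≤ vc V I c, ∏ f, (Fintype.card (V f) : ℝ) ^ Nat.card {i // B f i} := by
        refine sum_le_sum fun p hp => ?_
        rw [mem_filter] at hp
        exact hT2 p hp.2
    _ ≤ ∑ p : Cc → Finset (∀ f, V f × V f),
        ∏ f, (Fintype.card (V f) : ℝ) ^ Nat.card {i // B f i} :=
        sum_le_sum_of_subset_of_nonneg (filter_subset _ _) fun p _ _ => hPn
    _ = _ := by
        rw [sum_const, nsmul_eq_mul, card_univ]

end count

/-- **Job LD-CRD.** -/
theorem t_CRD (h1 : S_PROBF) (h2 : S_ORT) : S_CRD := by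
  intro s F Cc _ _ _ V _ _ _ I t₀
  have hVf : ∀ f, Fintype (V f) := fun f => Fintype.ofFinite _
  refine ⟨(Fintype.card (Cc → Finset (∀ f, V f × V f)) : ℝ), Nat.cast_nonneg _, ?_⟩
  intro D hs hsym nd U ι _ _ _ b col A B hB
  have hcard : ∀ f, (Nat.card (V f) : ℝ) = (Fintype.card (V f) : ℝ) := fun f => by
    rw [Nat.card_eq_fintype_card]
  have hcnt : ∀ (α : prs (univ : Finset ι) → ZMod 2) (f : F),
      (Nat.card (Sel (D f) ((sb b (A f) (B f)).N t₀ (ra (B f) α)) (sb b (A f) (B f)).h) : ℝ) =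
      (cnt (D f) (sb b (A f) (B f)) (fun _ => True) (ra (B f) α) : ℝ) := by
    intro α f
    unfold cnt
    rw [hs]
    congr 1
    exact Nat.card_congr (Equiv.subtypeEquivRight fun e => by simp)
  simp only [hcnt]
  have hsum := sum_cnt h1 t₀ D hs hsym nd b A B (fun _ _ => True)
  have hW : 0 < ∏ f, (Fintype.card (V f) : ℝ) ^ Nat.card {i // B f i} :=
    Finset.prod_pos fun f _ => pow_pos (by exact_mod_cast Fintype.card_pos) _
  have hle : ∑ e : XX s V A B, ∑ W : YY V B,
      (∏ f, gg (D f) (sb b (A f) (B f)) (fun _ => True) (e f)) *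
        (if Unl (fun f => (D f).ω) B (ZZ e W) then
          ∏ f, sg (Gx (D f) (sb b (A f) (B f)) (e f) (W f)) else 0) ≤
      ∑ e : XX s V A B, ∑ W : YY V B,
        if Unl (fun f => (D f).ω) B (ZZ e W) then (1 : ℝ) else 0 := by
    refine Finset.sum_le_sum fun e _ => Finset.sum_le_sum fun W _ => ?_
    have e1 : |∏ f, gg (D f) (sb b (A f) (B f)) (fun _ => True) (e f)| ≤ 1 := by
      rw [Finset.abs_prod]
      refine Finset.prod_le_one (fun f _ => abs_nonneg _) fun f _ => ?_
      rw [abs_of_nonneg (gg_zero_or_one _ _ _ _).1]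
      exact (gg_zero_or_one _ _ _ _).2
    have e2 : |∏ f, sg (Gx (D f) (sb b (A f) (B f)) (e f) (W f))| = 1 := by
      rw [Finset.abs_prod]
      exact Finset.prod_eq_one fun f _ => abs_sg _
    split_ifs with h
    · refine (le_abs_self _).trans ?_
      rw [abs_mul, e2, mul_one]
      exact e1
    · rw [mul_zero]
  have hct := count_le (V := V) (s := s) (A := A) (B := B) (Unl (fun f => (D f).ω) B)
  have hun := unl_count (fun f => (hsym f).alt) nd I col B hB
  obtain ⟨W, hWd⟩ : ∃ W : ℝ, W = ∏ f, (Fintype.card (V f) : ℝ) ^ Nat.card {i // B f i} := ⟨_, rfl⟩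
  rw [← hWd] at hW hsum hun
  have hfin : (∑ α : prs (univ : Finset ι) → ZMod 2,
        ∏ f, (cnt (D f) (sb b (A f) (B f)) (fun _ => True) (ra (B f) α) : ℝ)) * W ≤
      ((Fintype.card (Cc → Finset (∀ f, V f × V f)) : ℝ) *
        (∏ f, (Nat.card (V f) : ℝ) ^ (Fintype.card s + Fintype.card U)) *
        2 ^ (prs (univ : Finset ι)).card) * W := by
    rw [hsum]
    have e1 : ∏ f, (Nat.card (V f) : ℝ) ^ (Fintype.card s + Fintype.card U) =
        (∏ f, (Fintype.card (V f) : ℝ)) ^ (Fintype.card s + Fintype.card U) := by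
      rw [Finset.prod_pow]
      simp only [hcard]
    rw [e1]
    have e2 : 0 ≤ (∏ f, (Fintype.card (V f) : ℝ)) ^ (Fintype.card s + Fintype.card U) := by
      positivity
    calc _ ≤ (2 : ℝ) ^ (prs (univ : Finset ι)).card *
          ((∏ f, (Fintype.card (V f) : ℝ)) ^ (Fintype.card s + Fintype.card U) *
            ((Fintype.card (Cc → Finset (∀ f, V f × V f)) : ℝ) * W)) := by
          refine mul_le_mul_of_nonneg_left (hle.trans (hct.trans ?_)) (by positivity)
          exact mul_le_mul_of_nonneg_left hun e2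
      _ = _ := by ring
  exact le_of_mul_le_mul_right hfin hW

end Pool.Agent.Q24.LD
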